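import Mathlib
import Pool.Agent.PatSturm.Statement
import Pool.Agent.PatSturm.Final

/-!
Explicit classification of all recurrent pattern Sturmian sequences over an arbitrary alphabet,
double-sided and single-sided. The definitions are in `Pool/Agent/PatSturm/Statement.lean`.
-/

set_option autoImplicit false

namespace Pool.Agent.Results.MP_2825c1_co.RecurrentClassification

open Pool.Agent.PatSturm.Statement

/-- **Classification of the pattern Sturmian sequences.**
A double-sided sequence over any alphabet is recurrent and pattern Sturmian if and only if it is
the two-letter renaming of a coding of an irrational rotation by an interval or of an arc-Toeplitz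
sequence; a single-sided sequence `(x_m)_{m ≥ 1}` is recurrent and pattern Sturmian if and only if
it is the restriction to the positive integers of such a double-sided sequence. -/
theorem result :
    (∀ {A : Type} (x : ℤ → A), (Recurrent x ∧ PatternSturmian x) ↔
      ∃ (p q : A) (X : ℤ → Bool), p ≠ q ∧ (IntervalCoding X ∨ ArcToeplitz X) ∧
        ∀ m : ℤ, x m = if X m = true then p else q) ∧
    (∀ {A : Type} (x : ℕ → A), (Recurrent₁ x ∧ PatternSturmian₁ x) ↔
      ∃ (p q : A) (X : ℤ → Bool), p ≠ q ∧ (IntervalCoding X ∨ ArcToeplitz X) ∧
        ∀ m : ℕ, 1 ≤ m → x m = if X m = true then p else q) :=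
  Pool.Agent.PatSturm.Final.full_result Pool.Agent.PatSturm.Final.main_holds

end Pool.Agent.Results.MP_2825c1_co.RecurrentClassification
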